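import Pool.Agent.RA6.Defs99

set_option autoImplicit false

/-!
# A static construction from a finite certificate (MP_cf0286_al)

`B` is a finite set with a colouring `b` (a fiber), `C i` are symmetric cross matrices.  The points
are pairs (fiber, position).  The fibers are terms: `base`, `free F G i j` (a new fiber joined to the
fibers `F`, `G` by the matrices `C i`, `C j`), `ch F x G y s t h` (a twin of the fiber `F`, whose
head `h` is joined to `(F, x)` by `b x h = s` and to `(G, y)` by the colour `t`).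
-/

namespace Pool.Agent.RA6F

open Pool.Agent.RA6

/-- the finite data -/
structure Data (B : Type) where
  /-- number of cross matrices; `0` joins twins, `1` is the default -/
  m : ℕ
  b : B → B → ZMod 6
  C : ℕ → B → B → ZMod 6
  /-- `att t y h`: the head `h` may be joined to `y` by the colour `t` -/
  att : ZMod 6 → B → B → Prop
  /-- the colours allowed for the edge between a head and its twin fiber -/
  tw : ZMod 6 → Prop

variable {B : Type} (D : Data B)

namespace Data

/-- the special edge of colour `s` between `x` and the head `h` of another fiber, joined by `C i`,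
is compatible with both fibers -/
def L (x h : B) (s : ZMod 6) (i : ℕ) : Prop :=
  (∀ p, p ≠ x → ¬ Forbidden s (D.b x p) (D.C i h p)) ∧
  (∀ q, q ≠ h → ¬ Forbidden s (D.b h q) (D.C i q x))

/-- `h` can serve as head for the request `(s, t)` at `x, y`, where the fibers of `x`, `y` are
joined by `C i` -/
def Good (x y : B) (s t : ZMod 6) (i : ℕ) (h : B) : Prop :=
  h ≠ x ∧ D.b x h = s ∧ D.tw s ∧ D.att t y h ∧ D.L x h s 0 ∧ D.L y h t i

/-- the conditions on triangles -/
structure TriOK : Prop where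
  m_pos : 2 ≤ D.m
  b_symm : ∀ p q, p ≠ q → D.b p q = D.b q p
  C_symm : ∀ i < D.m, ∀ p q, D.C i p q = D.C i q p
  d1 : ∀ p q r, p ≠ q → q ≠ r → p ≠ r → ¬ Forbidden (D.b p q) (D.b q r) (D.b p r)
  d2 : ∀ i < D.m, ∀ w p q, p ≠ q → ¬ Forbidden (D.C i w p) (D.C i w q) (D.b p q)
  three : ∀ i < D.m, ∀ j < D.m, ∀ k < D.m, ∀ p q r,
    ¬ Forbidden (D.C i p q) (D.C j q r) (D.C k p r)
  /-- the joining colours hurt nobody -/
  a2 : ∀ t y h, D.att t y h → ∀ j < D.m, ∀ k < D.m, ∀ q,
    ¬ Forbidden t (D.C j q y) (D.C k q h)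
  /-- two heads joined to the same point -/
  u : ∀ t t' y h h', D.att t y h → D.att t' y h' → ∀ i < D.m, ¬ Forbidden t t' (D.C i h h')

/-- a request at `x`, `y` in two fibers joined by `C i`, served in the fiber of `x` or of `y` -/
def Serv (x y : B) (i : ℕ) (s t : ZMod 6) : B ⊕ B → Prop
  | Sum.inl z => z ≠ x ∧ D.b x z = s ∧ D.C i z y = t
  | Sum.inr z => z ≠ y ∧ D.C i x z = s ∧ D.b z y = t

/-- served by a new fiber -/
def Free (x y : B) (i : ℕ) (s t : ZMod 6) : Prop :=
  if i = 0 then ∃ j z, 1 ≤ j ∧ j < D.m ∧ D.C j x z = s ∧ D.C j z y = t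
  else ∃ j k z, 1 ≤ j ∧ j < D.m ∧ 1 ≤ k ∧ k < D.m ∧ D.C j x z = s ∧ D.C k z y = t

/-- served by a twin of the fiber of `x`, whatever the `att`-parent of `y` is -/
def Chain (x y : B) (i : ℕ) (s t : ZMod 6) : Prop :=
  ∀ e : Option (ZMod 6 × B × ℕ),
    (∀ t1 y1 i1, e = some (t1, y1, i1) → D.att t1 y1 y ∧ i1 < D.m) →
    ∃ h, D.Good x y s t i h ∧ ∀ t1 y1 i1, e = some (t1, y1, i1) → ¬ Forbidden t t1 (D.C i1 h y1)

/-- all requests at a pair of colour `c` can be served; `n` is the number of servers in the two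
fibers which are needed -/
def Req (x y : B) (i : ℕ) (c : ZMod 6) (dec : Bool) : Prop :=
  ∀ s t, ¬ Forbidden c s t →
    (if dec then ∃ σ, D.Serv x y i s t σ else ∃ σ σ', σ ≠ σ' ∧ D.Serv x y i s t σ ∧ D.Serv x y i s t σ') ∨
    D.Free x y i s t ∨ D.Chain x y i s t ∨ D.Chain y x i t s

/-- the conditions on requests -/
structure ReqOK : Prop where
  r0 : ∀ x y, x ≠ y → ∀ s t, ¬ Forbidden (D.b x y) s t →
    (∃ z, z ≠ x ∧ z ≠ y ∧ D.b x z = s ∧ D.b z y = t) ∨
    ∃ j z, 1 ≤ j ∧ j < D.m ∧ D.C j x z = s ∧ D.C j z y = t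
  r1 : ∀ i < D.m, ∀ x y, D.Req x y i (D.C i x y) false
  r2 : ∀ x h, h ≠ x → D.tw (D.b x h) → D.L x h (D.b x h) 0 → D.Req x h 0 (D.b x h) true
  r3 : ∀ i < D.m, ∀ y h t, D.att t y h → D.L y h t i → D.Req y h i t true

end Data

/-- the fibers -/
inductive Fib (B : Type)
  | base : Fib B
  | free : Fib B → Fib B → ℕ → ℕ → Fib B
  | ch : Fib B → B → Fib B → B → ZMod 6 → ZMod 6 → B → Fib B

namespace Fib

/-- size -/
def sz : Fib B → ℕ
  | base => 1
  | free F G _ _ => F.sz + G.sz + 1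
  | ch F _ G _ _ _ _ => F.sz + G.sz + 1

theorem sz_pos (F : Fib B) : 0 < F.sz := by
  cases F <;> simp [sz]

/-- the root of the class of twins -/
def cls : Fib B → Fib B
  | base => base
  | free F G i j => free F G i j
  | ch F _ _ _ _ _ _ => F.cls

theorem cls_sz (F : Fib B) : F.cls.sz ≤ F.sz := by
  induction F with
  | base => exact le_refl _
  | free F G i j _ _ => exact le_refl _
  | ch F x G y s t h ih _ => simp only [cls, sz]; omega

open Classical in
/-- the matrix prescribed by the newer root -/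
noncomputable def rel : Fib B → Fib B → Option ℕ
  | free F G i j, R => if F.cls = R then some i else if G.cls = R then some j else none
  | _, _ => none

theorem rel_sz {R R' : Fib B} {i : ℕ} (h : rel R R' = some i) : R'.sz < R.sz := by
  cases R with
  | base => simp [rel] at h
  | ch F x G y s t h' => simp [rel] at h
  | free F G i' j' =>
    simp only [rel] at h
    have h1 := F.cls_sz
    have h2 := G.cls_sz
    split_ifs at h with h3 h4
    · rw [← h3]; simp only [sz]; omega
    · rw [← h4]; simp only [sz]; omega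

open Classical in
/-- the index of the matrix between two fibers -/
noncomputable def mu (N M : Fib B) : ℕ :=
  if N.cls = M.cls then 0 else (rel N.cls M.cls).getD ((rel M.cls N.cls).getD 1)

theorem mu_symm (N M : Fib B) : mu N M = mu M N := by
  unfold mu
  by_cases h : N.cls = M.cls
  · rw [if_pos h, if_pos h.symm]
  · rw [if_neg h, if_neg (Ne.symm h)]
    rcases h1 : rel N.cls M.cls with _ | i
    · rcases h2 : rel M.cls N.cls with _ | j
      · simp
      · simp
    · rcases h2 : rel M.cls N.cls with _ | j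
      · simp
      · have := rel_sz h1
        have := rel_sz h2
        omega

theorem mu_zero {N M : Fib B} (h : N.cls = M.cls) : mu N M = 0 := by
  unfold mu; rw [if_pos h]

theorem mu_congr {N N' : Fib B} (h : N.cls = N'.cls) (M : Fib B) : mu N M = mu N' M := by
  unfold mu; rw [h]

end Fib

open Fib

/-- `p` is the head of `N`, joined to the point `(M, q)` by the colour `c` -/
def Sp (N : Fib B) (p : B) (M : Fib B) (q : B) (c : ZMod 6) : Prop :=
  ∃ F x G y s t, N = ch F x G y s t p ∧ F ≠ G ∧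
    ((M = F ∧ q = x ∧ c = s) ∨ (M = G ∧ q = y ∧ c = t))

theorem Sp.sz {N M : Fib B} {p q : B} {c : ZMod 6} (h : Sp N p M q c) : M.sz < N.sz := by
  obtain ⟨F, x, G, y, s, t, rfl, -, ⟨rfl, -, -⟩ | ⟨rfl, -, -⟩⟩ := h
  · simp only [Fib.sz]; omega
  · simp only [Fib.sz]; omega

theorem Sp.unique {N M : Fib B} {p q : B} {c c' : ZMod 6} (h : Sp N p M q c) (h' : Sp N p M q c') :
    c = c' := by
  obtain ⟨F, x, G, y, s, t, rfl, hFG, h⟩ := h
  obtain ⟨F', x', G', y', s', t', he, -, h'⟩ := h'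
  injection he with e1 e2 e3 e4 e5 e6 e7
  subst e1 e2 e3 e4 e5 e6
  rcases h with ⟨rfl, rfl, rfl⟩ | ⟨rfl, rfl, rfl⟩
  · rcases h' with ⟨-, -, rfl⟩ | ⟨h1, -, -⟩
    · rfl
    · exact absurd h1 hFG
  · rcases h' with ⟨h1, -, -⟩ | ⟨-, -, rfl⟩
    · exact absurd h1.symm hFG
    · rfl

/-- at most one special entry between two fibers -/
theorem Sp.pos {N M : Fib B} {p q p' q' : B} {c c' : ZMod 6} (h : Sp N p M q c)
    (h' : Sp N p' M q' c') : p = p' ∧ q = q' := by
  obtain ⟨F, x, G, y, s, t, rfl, hFG, h⟩ := h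
  obtain ⟨F', x', G', y', s', t', he, -, h'⟩ := h'
  injection he with e1 e2 e3 e4 e5 e6 e7
  subst e1 e2 e3 e4 e5 e6
  refine ⟨e7, ?_⟩
  rcases h with ⟨rfl, rfl, rfl⟩ | ⟨rfl, rfl, rfl⟩
  · rcases h' with ⟨-, rfl, -⟩ | ⟨h1, -, -⟩
    · rfl
    · exact absurd h1 hFG
  · rcases h' with ⟨h1, -, -⟩ | ⟨-, rfl, -⟩
    · exact absurd h1.symm hFG
    · rfl

open Classical in
/-- the colouring -/
noncomputable def col (N : Fib B) (p : B) (M : Fib B) (q : B) : ZMod 6 :=
  if N = M then D.b p q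
  else if h : ∃ c, Sp N p M q c then h.choose
  else if h : ∃ c, Sp M q N p c then h.choose
  else D.C (mu N M) p q

theorem col_self (N : Fib B) (p q : B) : col D N p N q = D.b p q := by
  unfold col; rw [if_pos rfl]

theorem Sp.col_eq {N M : Fib B} {p q : B} {c : ZMod 6} (h : Sp N p M q c) : col D N p M q = c := by
  have hne : N ≠ M := by rintro rfl; exact absurd h.sz (lt_irrefl _)
  have hex : ∃ c, Sp N p M q c := ⟨c, h⟩
  unfold col
  rw [if_neg hne, dif_pos hex]
  exact hex.choose_spec.unique h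

theorem Sp.col_eq' {N M : Fib B} {p q : B} {c : ZMod 6} (h : Sp N p M q c) : col D M q N p = c := by
  have hne : M ≠ N := by rintro rfl; exact absurd h.sz (lt_irrefl _)
  have hex : ∃ c, Sp N p M q c := ⟨c, h⟩
  have hno : ¬ ∃ c, Sp M q N p c := by
    rintro ⟨c', h'⟩
    exact absurd (h.sz.trans h'.sz) (lt_irrefl _)
  unfold col
  rw [if_neg hne, dif_neg hno, dif_pos hex]
  exact hex.choose_spec.unique h

/-- the two points are not joined by a special edge -/
def Plain (N : Fib B) (p : B) (M : Fib B) (q : B) : Prop :=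
  N ≠ M ∧ (∀ c, ¬ Sp N p M q c) ∧ (∀ c, ¬ Sp M q N p c)

theorem Plain.col_eq {N M : Fib B} {p q : B} (h : Plain N p M q) :
    col D N p M q = D.C (mu N M) p q := by
  obtain ⟨h1, h2, h3⟩ := h
  unfold col
  rw [if_neg h1, dif_neg (by rintro ⟨c, hc⟩; exact h2 c hc), dif_neg (by rintro ⟨c, hc⟩; exact h3 c hc)]

theorem Plain.symm {N M : Fib B} {p q : B} (h : Plain N p M q) : Plain M q N p :=
  ⟨h.1.symm, h.2.2, h.2.1⟩

theorem edge_cases {N M : Fib B} (h : N ≠ M) (p q : B) :
    (∃ c, Sp N p M q c) ∨ (∃ c, Sp M q N p c) ∨ Plain N p M q := by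
  by_cases h1 : ∃ c, Sp N p M q c
  · exact Or.inl h1
  · by_cases h2 : ∃ c, Sp M q N p c
    · exact Or.inr (Or.inl h2)
    · exact Or.inr (Or.inr ⟨h, fun c hc => h1 ⟨c, hc⟩, fun c hc => h2 ⟨c, hc⟩⟩)

/-- the valid fibers -/
def Valid : Fib B → Prop
  | base => True
  | free F G i j => Valid F ∧ Valid G ∧ 1 ≤ i ∧ i < D.m ∧ 1 ≤ j ∧ j < D.m
  | ch F x G y s t h => Valid F ∧ Valid G ∧ F ≠ G ∧ D.Good x y s t (mu F G) h ∧
      ¬ Forbidden (col D F x G y) s t ∧
      ∀ F1 x1 G1 y1 s1 t1, G = ch F1 x1 G1 y1 s1 t1 y → ¬ (F = G1 ∧ x = y1) →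
        ¬ Forbidden t t1 (D.C (mu F G1) h y1)

theorem cls_valid {F : Fib B} (h : Valid D F) : Valid D F.cls := by
  induction F with
  | base => exact h
  | free F G i j _ _ => exact h
  | ch F x G y s t h' ih _ => exact ih h.1

theorem rel_lt {R R' : Fib B} {i : ℕ} (hR : Valid D R) (h : rel R R' = some i) : 1 ≤ i ∧ i < D.m := by
  cases R with
  | base => simp [rel] at h
  | ch F x G y s t h' => simp [rel] at h
  | free F G i' j' =>
    simp only [rel] at h
    obtain ⟨-, -, h1, h2, h3, h4⟩ := hR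
    split_ifs at h with h5 h6
    · simp only [Option.some.injEq] at h; subst h; exact ⟨h1, h2⟩
    · simp only [Option.some.injEq] at h; subst h; exact ⟨h3, h4⟩

theorem mu_lt (hm : 2 ≤ D.m) {N M : Fib B} (hN : Valid D N) (hM : Valid D M) : mu N M < D.m := by
  unfold mu
  split_ifs with h
  · omega
  · rcases h1 : rel N.cls M.cls with _ | i
    · rcases h2 : rel M.cls N.cls with _ | j
      · simp only [Option.getD_none]; omega
      · simpa using (rel_lt D (cls_valid D hM) h2).2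
    · simpa using (rel_lt D (cls_valid D hN) h1).2

theorem mu_pos {N M : Fib B} (hN : Valid D N) (hM : Valid D M) (h : N.cls ≠ M.cls) : mu N M ≠ 0 := by
  unfold mu
  rw [if_neg h]
  rcases h1 : rel N.cls M.cls with _ | i
  · rcases h2 : rel M.cls N.cls with _ | j
    · simp
    · have := (rel_lt D (cls_valid D hM) h2).1
      simp only [Option.getD_none, Option.getD_some]; omega
  · have := (rel_lt D (cls_valid D hN) h1).1
    simp only [Option.getD_some]; omega

section triangles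

variable {D} (hT : D.TriOK)

include hT

theorem col_symm {N M : Fib B} {p q : B} (hN : Valid D N) (hM : Valid D M) (h : (N, p) ≠ (M, q)) :
    col D N p M q = col D M q N p := by
  by_cases hNM : N = M
  · subst hNM
    rw [col_self, col_self]
    exact hT.b_symm _ _ (fun h' => h (by rw [h']))
  · rcases edge_cases hNM p q with ⟨c, h1⟩ | ⟨c, h1⟩ | h1
    · rw [h1.col_eq, h1.col_eq']
    · rw [h1.col_eq, h1.col_eq']
    · rw [h1.col_eq, h1.symm.col_eq, mu_symm M N]
      exact hT.C_symm _ (mu_lt D hT.m_pos hN hM) _ _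

theorem tri_A {N M K : Fib B} {p q r : B} {c c' : ZMod 6} (hN : Valid D N) (h1 : Sp N p M q c)
    (h2 : Sp N p K r c') (hMK : M ≠ K) : ¬ Forbidden c c' (col D M q K r) := by
  obtain ⟨F, x, G, y, s, t, rfl, hFG, h1⟩ := h1
  obtain ⟨F', x', G', y', s', t', he, -, h2⟩ := h2
  injection he with e1 e2 e3 e4 e5 e6 e7
  subst e1 e2 e3 e4 e5 e6
  obtain ⟨vF, vG, -, -, hreq, -⟩ := hN
  rcases h1 with ⟨rfl, rfl, rfl⟩ | ⟨rfl, rfl, rfl⟩
  · rcases h2 with ⟨rfl, rfl, rfl⟩ | ⟨rfl, rfl, rfl⟩
    · exact absurd rfl hMK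
    · exact fun hf => hreq (forb_swap12 _ _ _ (forb_swap23 _ _ _ hf))
  · rcases h2 with ⟨rfl, rfl, rfl⟩ | ⟨rfl, rfl, rfl⟩
    · rw [col_symm hT vG vF (by intro h; exact hMK (congrArg Prod.fst h))]
      intro hf
      apply hreq
      exact forb_swap12 _ _ _ (forb_swap23 _ _ _ (forb_swap12 _ _ _ hf))
    · exact absurd rfl hMK

theorem tri_B {N M K : Fib B} {p q r : B} {c : ZMod 6} (hN : Valid D N) (hM : Valid D M)
    (hK : Valid D K) (h1 : Sp N p M q c) (h2 : Plain N p K r) (h3 : Plain M q K r) :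
    ¬ Forbidden c (col D M q K r) (col D N p K r) := by
  rw [h2.col_eq, h3.col_eq]
  obtain ⟨F, x, G, y, s, t, rfl, hFG, h1⟩ := h1
  have hlt := mu_lt D hT.m_pos hN hK
  have hlt' := mu_lt D hT.m_pos hM hK
  obtain ⟨vF, vG, -, ⟨g1, g2, g3, g4, g5, g6⟩, -, -⟩ := hN
  rcases h1 with ⟨rfl, rfl, rfl⟩ | ⟨rfl, rfl, rfl⟩
  · have e : mu (ch M q G y c t p) K = mu M K := mu_congr rfl K
    rw [e, hT.C_symm _ hlt', hT.C_symm _ hlt' p]
    rw [← g2]
    have := hT.d2 _ hlt' r q p g1.symm
    exact fun hf => this (forb_swap23 _ _ _ (forb_swap12 _ _ _ hf))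
  · have := hT.a2 _ _ _ g4 _ hlt' _ hlt r
    rw [hT.C_symm _ hlt', hT.C_symm _ hlt]
    exact this

theorem tri_C {N M K : Fib B} {p q r : B} {c c' : ZMod 6} (hN : Valid D N) (hK : Valid D K)
    (h1 : Sp N p M q c) (h2 : Sp K r M q c') (h3 : Plain N p K r) :
    ¬ Forbidden c c' (col D N p K r) := by
  rw [h3.col_eq]
  obtain ⟨F, x, G, y, s, t, rfl, hFG, h1⟩ := h1
  obtain ⟨F', x', G', y', s', t', rfl, hFG', h2⟩ := h2
  have hlt := mu_lt D hT.m_pos hN hK
  obtain ⟨vF, vG, -, ⟨g1, g2, g3, g4, g5, g6⟩, -, -⟩ := hN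
  obtain ⟨vF', vG', -, ⟨k1, k2, k3, k4, k5, k6⟩, -, -⟩ := hK
  rcases h1 with ⟨rfl, rfl, rfl⟩ | ⟨rfl, rfl, rfl⟩
  · rcases h2 with ⟨rfl, rfl, rfl⟩ | ⟨rfl, rfl, rfl⟩
    · have e : mu (ch M q G y c t p) (ch M q G' y' c' t' r) = 0 := mu_zero rfl
      rw [e]
      have := g5.1 r k1
      rwa [k2] at this
    · have e : mu (ch M q G y c t p) (ch F' x' M q s' c' r) = mu F' M := by
        rw [mu_symm]
        unfold mu; rfl
      rw [e] at hlt ⊢
      have := k6.1 p g1
      rw [g2] at this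
      rw [hT.C_symm _ hlt]
      exact fun hf => this (forb_swap12 _ _ _ hf)
  · rcases h2 with ⟨rfl, rfl, rfl⟩ | ⟨rfl, rfl, rfl⟩
    · have e : mu (ch F x M q s c p) (ch M q G' y' c' t' r) = mu F M := by
        unfold mu; rfl
      rw [e]
      have := g6.1 r k1
      rwa [k2] at this
    · exact hT.u _ _ _ _ _ g4 k4 _ hlt

theorem tri_D {N M K : Fib B} {p q r : B} {c c' : ZMod 6} (hN : Valid D N) (hM : Valid D M)
    (h1 : Sp N p M q c) (h2 : Sp M q K r c') (h3 : Plain N p K r) :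
    ¬ Forbidden c c' (col D N p K r) := by
  rw [h3.col_eq]
  have hsp : ∀ d, ¬ Sp N p K r d := h3.2.1
  obtain ⟨F, x, G, y, s, t, rfl, hFG, h1⟩ := h1
  obtain ⟨F1, x1, G1, y1, s1, t1, rfl, hFG1, h2⟩ := h2
  obtain ⟨vF, vG, -, ⟨g1, g2, g3, g4, g5, g6⟩, -, hW⟩ := hN
  obtain ⟨vF1, vG1, -, ⟨k1, k2, k3, k4, k5, k6⟩, -, -⟩ := hM
  rcases h1 with ⟨h, rfl, rfl⟩ | ⟨h, rfl, rfl⟩
  · subst h
    rcases h2 with ⟨rfl, rfl, rfl⟩ | ⟨rfl, rfl, rfl⟩
    · have e : mu (ch (ch K r G1 y1 c' t1 q) q G y c t p) K = 0 := mu_zero rfl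
      rw [e]
      have := k5.2 p g1
      rw [g2] at this
      exact fun hf => this (forb_swap12 _ _ _ hf)
    · have e : mu (ch (ch F1 x1 K r s1 c' q) q G y c t p) K = mu F1 K := by
        unfold mu; rfl
      rw [e]
      have := k6.2 p g1
      rw [g2] at this
      exact fun hf => this (forb_swap12 _ _ _ hf)
  · subst h
    rcases h2 with ⟨rfl, rfl, rfl⟩ | ⟨rfl, rfl, rfl⟩
    · have e : mu (ch F x (ch K r G1 y1 c' t1 q) q s c p) K = mu F (ch K r G1 y1 c' t1 q) := by
        unfold mu; rfl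
      rw [e]
      have := g6.1 r k1.symm
      rw [hT.b_symm _ _ k1, k2] at this
      exact this
    · have e : mu (ch F x (ch F1 x1 K r s1 c' q) q s c p) K = mu F K := by
        unfold mu; rfl
      rw [e]
      refine hW _ _ _ _ _ _ rfl ?_
      rintro ⟨rfl, rfl⟩
      exact hsp s ⟨_, _, _, _, _, _, rfl, hFG, Or.inl ⟨rfl, rfl, rfl⟩⟩

theorem tri_of_sp {N M K : Fib B} {p q r : B} {c : ZMod 6} (hN : Valid D N) (hM : Valid D M)
    (hK : Valid D K) (hNK : N ≠ K) (hMK : M ≠ K) (h1 : Sp N p M q c) :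
    ¬ Forbidden c (col D M q K r) (col D N p K r) := by
  rcases edge_cases hNK p r with ⟨c2, h2⟩ | ⟨c2, h2⟩ | h2
  · rw [h2.col_eq]
    exact fun hf => tri_A hT hN h1 h2 hMK (forb_swap23 _ _ _ hf)
  · rw [h2.col_eq']
    rcases edge_cases hMK q r with ⟨c3, h3⟩ | ⟨c3, h3⟩ | h3
    · exact absurd ((h1.sz.trans h2.sz).trans h3.sz) (lt_irrefl _)
    · rw [h3.col_eq']
      have := tri_A hT hK h2 h3 (by rintro rfl; exact absurd h1.sz (lt_irrefl _))
      rw [h1.col_eq] at this
      exact fun hf => this (forb_swap23 _ _ _ (forb_swap12 _ _ _ (forb_swap23 _ _ _ hf)))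
    · have := tri_D hT hK hN h2 h1 h3.symm
      rw [col_symm hT hK hM (by intro h; exact hMK (congrArg Prod.fst h).symm)] at this
      exact fun hf => this (forb_swap12 _ _ _ (forb_swap23 _ _ _ hf))
  · rcases edge_cases hMK q r with ⟨c3, h3⟩ | ⟨c3, h3⟩ | h3
    · rw [h3.col_eq]
      exact tri_D hT hN hM h1 h3 h2
    · rw [h3.col_eq']
      exact tri_C hT hN hK h1 h3 h2
    · exact tri_B hT hN hM hK h1 h2 h3

/-- triangles with three different fibers -/
theorem tri_three {N M K : Fib B} {p q r : B} (hN : Valid D N) (hM : Valid D M)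
    (hK : Valid D K) (hNM : N ≠ M) (hNK : N ≠ K) (hMK : M ≠ K) :
    ¬ Forbidden (col D N p M q) (col D M q K r) (col D N p K r) := by
  have s1 : ∀ {A A' : Fib B} {u u' : B}, Valid D A → Valid D A' → A ≠ A' →
      col D A u A' u' = col D A' u' A u := fun h h' hne =>
    col_symm hT h h' (fun e => hne (congrArg Prod.fst e))
  rcases edge_cases hNM p q with ⟨c, h1⟩ | ⟨c, h1⟩ | h1
  · rw [h1.col_eq]
    exact tri_of_sp hT hN hM hK hNK hMK h1
  · rw [h1.col_eq']
    exact fun hf => tri_of_sp hT hM hN hK hMK hNK h1 (forb_swap23 _ _ _ hf)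
  · rcases edge_cases hMK q r with ⟨c, h2⟩ | ⟨c, h2⟩ | h2
    · have := tri_of_sp (r := p) hT hM hK hN hNM.symm hNK.symm h2
      rw [h2.col_eq, s1 hN hM hNM, s1 hN hK hNK]
      exact fun hf => this (forb_swap23 _ _ _ (forb_swap12 _ _ _ hf))
    · have := tri_of_sp (r := p) hT hK hM hN hNK.symm hNM.symm h2
      rw [h2.col_eq', s1 hN hM hNM, s1 hN hK hNK]
      exact fun hf => this (forb_swap12 _ _ _ hf)
    · rcases edge_cases hNK p r with ⟨c, h3⟩ | ⟨c, h3⟩ | h3
      · have := tri_of_sp (r := q) hT hN hK hM hNM hMK.symm h3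
        rw [h3.col_eq, s1 hM hK hMK]
        exact fun hf => this (forb_swap12 _ _ _ (forb_swap23 _ _ _ (forb_swap12 _ _ _ hf)))
      · have := tri_of_sp (r := q) hT hK hN hM hMK.symm hNM h3
        rw [h3.col_eq', s1 hM hK hMK]
        exact fun hf => this (forb_swap12 _ _ _ (forb_swap23 _ _ _ hf))
      · rw [h1.col_eq, h2.col_eq, h3.col_eq]
        exact hT.three _ (mu_lt D hT.m_pos hN hM) _ (mu_lt D hT.m_pos hM hK) _
          (mu_lt D hT.m_pos hN hK) _ _ _

/-- triangles with two points in one fiber -/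
theorem tri_two {N K : Fib B} {p p' r : B} (hN : Valid D N) (hK : Valid D K) (hNK : N ≠ K)
    (hp : p ≠ p') : ¬ Forbidden (D.b p p') (col D N p K r) (col D N p' K r) := by
  -- one of the two edges special
  have key : ∀ {p p' : B} {c : ZMod 6}, p ≠ p' → (Sp N p K r c ∨ Sp K r N p c) →
      ¬ Forbidden (D.b p p') (col D N p K r) (col D N p' K r) := by
    intro p p' c hp h
    have hpl : Plain N p' K r := by
      refine ⟨hNK, fun d hd => ?_, fun d hd => ?_⟩
      · rcases h with h | h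
        · exact hp (h.pos hd).1
        · exact absurd (h.sz.trans hd.sz) (lt_irrefl _)
      · rcases h with h | h
        · exact absurd (h.sz.trans hd.sz) (lt_irrefl _)
        · exact hp (h.pos hd).2
    rw [hpl.col_eq]
    rcases h with h | h
    · rw [h.col_eq]
      obtain ⟨F, x, G, y, s, t, rfl, hFG, h⟩ := h
      obtain ⟨vF, vG, -, ⟨g1, g2, g3, g4, g5, g6⟩, -, -⟩ := hN
      rcases h with ⟨rfl, rfl, rfl⟩ | ⟨rfl, rfl, rfl⟩
      · have e : mu (ch K r G y c t p) K = 0 := mu_zero rfl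
        rw [e]
        exact fun hf => g5.2 p' hp.symm (forb_swap12 _ _ _ hf)
      · have e : mu (ch F x K r s c p) K = mu F K := by unfold mu; rfl
        rw [e]
        exact fun hf => g6.2 p' hp.symm (forb_swap12 _ _ _ hf)
    · rw [h.col_eq']
      have hlt := mu_lt D hT.m_pos hN hK
      rw [hT.C_symm _ hlt]
      obtain ⟨F, x, G, y, s, t, rfl, hFG, h⟩ := h
      obtain ⟨vF, vG, -, ⟨g1, g2, g3, g4, g5, g6⟩, -, -⟩ := hK
      rcases h with ⟨rfl, rfl, rfl⟩ | ⟨rfl, rfl, rfl⟩
      · have e : mu N (ch N p G y c t r) = 0 := mu_zero rfl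
        rw [e]
        exact fun hf => g5.1 p' hp.symm (forb_swap12 _ _ _ hf)
      · have e : mu N (ch F x N p s c r) = mu F N := by rw [mu_symm]; unfold mu; rfl
        rw [e]
        exact fun hf => g6.1 p' hp.symm (forb_swap12 _ _ _ hf)
  rcases edge_cases hNK p r with ⟨c, h⟩ | ⟨c, h⟩ | h
  · exact key hp (Or.inl h)
  · exact key hp (Or.inr h)
  · rcases edge_cases hNK p' r with ⟨c, h'⟩ | ⟨c, h'⟩ | h'
    · have := key hp.symm (Or.inl h')
      rw [hT.b_symm _ _ hp]
      exact fun hf => this (forb_swap23 _ _ _ hf)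
    · have := key hp.symm (Or.inr h')
      rw [hT.b_symm _ _ hp]
      exact fun hf => this (forb_swap23 _ _ _ hf)
    · rw [h.col_eq, h'.col_eq]
      have hlt := mu_lt D hT.m_pos hN hK
      rw [hT.C_symm _ hlt, hT.C_symm _ hlt p']
      have := hT.d2 _ hlt r p p' hp
      exact fun hf => this (forb_swap23 _ _ _ (forb_swap12 _ _ _ hf))

/-- **no forbidden triangle** -/
theorem no_forb {N M K : Fib B} {p q r : B} (hN : Valid D N) (hM : Valid D M)
    (hK : Valid D K) (h1 : (N, p) ≠ (M, q)) (h2 : (M, q) ≠ (K, r)) (h3 : (N, p) ≠ (K, r)) :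
    ¬ Forbidden (col D N p M q) (col D M q K r) (col D N p K r) := by
  by_cases hNM : N = M
  · subst hNM
    have hpq : p ≠ q := fun h => h1 (by rw [h])
    by_cases hNK : N = K
    · subst hNK
      rw [col_self, col_self, col_self]
      exact hT.d1 _ _ _ hpq (fun h => h2 (by rw [h])) (fun h => h3 (by rw [h]))
    · rw [col_self]
      exact fun hf => tri_two hT hN hK hNK hpq (forb_swap23 _ _ _ hf)
  · by_cases hNK : N = K
    · subst hNK
      have hpr : p ≠ r := fun h => h3 (by rw [h])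
      rw [col_self, col_symm hT hM hN h2]
      have := tri_two (r := q) hT hN hM hNM hpr
      exact fun hf => this (forb_swap12 _ _ _ (forb_swap23 _ _ _ hf))
    · by_cases hMK : M = K
      · subst hMK
        have hqr : q ≠ r := fun h => h2 (by rw [h])
        rw [col_self, col_symm hT hN hM h1, col_symm hT hN hM h3]
        have := tri_two (r := p) hT hM hN (Ne.symm hNM) hqr
        exact fun hf => this (forb_swap12 _ _ _ hf)
      · exact tri_three hT hN hM hK hNM hNK hMK

end triangles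

section witnesses

variable {D} (hT : D.TriOK)

/-- the fiber `free F G j k` and the fibers `F`, `G` -/
theorem free_ne_left (F G : Fib B) (j k : ℕ) : F ≠ free F G j k := by
  intro h
  have := congrArg Fib.sz h
  simp only [Fib.sz] at this
  omega

theorem free_ne_right (F G : Fib B) (j k : ℕ) : G ≠ free F G j k := by
  intro h
  have := congrArg Fib.sz h
  simp only [Fib.sz] at this
  omega

theorem plain_free {F G K : Fib B} {j k : ℕ} (hK : K = F ∨ K = G) (p z : B) :
    Plain K p (free F G j k) z := by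
  refine ⟨?_, fun c hc => ?_, fun c hc => ?_⟩
  · rcases hK with rfl | rfl
    · exact free_ne_left _ _ _ _
    · exact free_ne_right _ _ _ _
  · have := hc.sz
    rcases hK with rfl | rfl
    · simp only [Fib.sz] at this; omega
    · simp only [Fib.sz] at this; omega
  · obtain ⟨F', x, G', y, s, t, he, -⟩ := hc
    cases he

theorem mu_free_left (F G : Fib B) (j k : ℕ) : mu F (free F G j k) = j := by
  rw [mu_symm]
  have hne : (free F G j k).cls ≠ F.cls := by
    intro h
    have h1 := congrArg Fib.sz h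
    have h2 := F.cls_sz
    have h3 : (free F G j k).cls.sz = F.sz + G.sz + 1 := rfl
    omega
  unfold mu
  rw [if_neg hne]
  have : rel (free F G j k).cls F.cls = some j := by
    show rel (free F G j k) F.cls = some j
    simp only [rel]
    rw [if_pos trivial]
  rw [this, Option.getD_some]

theorem mu_free_right {F G : Fib B} (h : F.cls ≠ G.cls) (j k : ℕ) : mu (free F G j k) G = k := by
  have hne : (free F G j k).cls ≠ G.cls := by
    intro h
    have h1 := congrArg Fib.sz h
    have h2 := G.cls_sz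
    have h3 : (free F G j k).cls.sz = F.sz + G.sz + 1 := rfl
    omega
  unfold mu
  rw [if_neg hne]
  have : rel (free F G j k).cls G.cls = some k := by
    show rel (free F G j k) G.cls = some k
    simp only [rel]
    rw [if_neg h, if_pos trivial]
  rw [this, Option.getD_some]

theorem mu_free_right' {F G : Fib B} (h : F.cls = G.cls) (j k : ℕ) : mu (free F G j k) G = j := by
  rw [mu_symm, mu_congr h.symm, mu_free_left]

/-- a special edge at the entry `(p, q)` -/
def SpE (F G : Fib B) (p q : B) : Prop := (∃ c, Sp F p G q c) ∨ (∃ c, Sp G q F p c)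

theorem SpE.unique {F G : Fib B} {p q p' q' : B} (h : SpE F G p q) (h' : SpE F G p' q') :
    p = p' ∧ q = q' := by
  rcases h with ⟨c, h⟩ | ⟨c, h⟩
  · rcases h' with ⟨c', h'⟩ | ⟨c', h'⟩
    · exact h.pos h'
    · exact absurd (h.sz.trans h'.sz) (lt_irrefl _)
  · rcases h' with ⟨c', h'⟩ | ⟨c', h'⟩
    · exact absurd (h.sz.trans h'.sz) (lt_irrefl _)
    · exact (h.pos h').symm

theorem plain_of_not {F G : Fib B} (hFG : F ≠ G) {p q : B} (h : ¬ SpE F G p q) : Plain F p G q :=
  ⟨hFG, fun c hc => h (Or.inl ⟨c, hc⟩), fun c hc => h (Or.inr ⟨c, hc⟩)⟩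

/-- the request `(s, t)` at the points `(F, x)`, `(G, y)` is served -/
def Wit (D : Data B) (F : Fib B) (x : B) (G : Fib B) (y : B) (s t : ZMod 6) : Prop :=
  ∃ K z, Valid D K ∧ (K, z) ≠ (F, x) ∧ (K, z) ≠ (G, y) ∧ col D F x K z = s ∧ col D K z G y = t

theorem wit_inl {F G : Fib B} {x y z : B} {s t : ZMod 6} (hF : Valid D F) (hFG : F ≠ G)
    (hz : z ≠ x) (h1 : D.b x z = s) (h2 : D.C (mu F G) z y = t) (hp : ¬ SpE F G z y) :
    Wit D F x G y s t := by
  refine ⟨F, z, hF, fun h => hz (congrArg Prod.snd h), fun h => hFG (congrArg Prod.fst h), ?_, ?_⟩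
  · rw [col_self, h1]
  · rw [(plain_of_not hFG hp).col_eq, h2]

theorem wit_inr {F G : Fib B} {x y z : B} {s t : ZMod 6} (hG : Valid D G) (hFG : F ≠ G)
    (hz : z ≠ y) (h1 : D.C (mu F G) x z = s) (h2 : D.b z y = t) (hp : ¬ SpE F G x z) :
    Wit D F x G y s t := by
  refine ⟨G, z, hG, fun h => hFG (congrArg Prod.fst h).symm, fun h => hz (congrArg Prod.snd h), ?_, ?_⟩
  · rw [(plain_of_not hFG hp).col_eq, h1]
  · rw [col_self, h2]

theorem wit_free {F G : Fib B} {x y : B} {s t : ZMod 6} (hF : Valid D F) (hG : Valid D G)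
    (h : D.Free x y (mu F G) s t) : Wit D F x G y s t := by
  have key : ∀ {j k z}, 1 ≤ j → j < D.m → 1 ≤ k → k < D.m → D.C j x z = s →
      D.C (mu (free F G j k) G) z y = t → Wit D F x G y s t := by
    intro j k z h1 h2 h3 h4 h5 h6
    refine ⟨free F G j k, z, ⟨hF, hG, h1, h2, h3, h4⟩, fun h => free_ne_left F G j k (congrArg Prod.fst h).symm,
      fun h => free_ne_right F G j k (congrArg Prod.fst h).symm, ?_, ?_⟩
    · rw [(plain_free (Or.inl rfl) x z).col_eq, mu_free_left, h5]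
    · rw [(plain_free (Or.inr rfl) y z).symm.col_eq, h6]
  unfold Data.Free at h
  by_cases hc : F.cls = G.cls
  · rw [if_pos (mu_zero hc)] at h
    obtain ⟨j, z, h1, h2, h3, h4⟩ := h
    exact key h1 h2 h1 h2 h3 (by rw [mu_free_right' hc, h4])
  · rw [if_neg (mu_pos D hF hG hc)] at h
    obtain ⟨j, k, z, h1, h2, h3, h4, h5, h6⟩ := h
    exact key h1 h2 h3 h4 h5 (by rw [mu_free_right hc, h6])

include hT in
theorem exists_ch {F G : Fib B} {x y : B} {s t : ZMod 6} (hF : Valid D F) (hG : Valid D G)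
    (hFG : F ≠ G) (hst : ¬ Forbidden (col D F x G y) s t) (h : D.Chain x y (mu F G) s t) :
    ∃ h, Valid D (ch F x G y s t h) := by
  classical
  by_cases hex : ∃ F1 x1 G1 y1 s1 t1, G = ch F1 x1 G1 y1 s1 t1 y ∧ ¬ (F = G1 ∧ x = y1)
  · obtain ⟨F1, x1, G1, y1, s1, t1, rfl, hne⟩ := hex
    have hG1 : Valid D G1 := hG.2.1
    obtain ⟨h', hg, hW⟩ := h (some (t1, y1, mu F G1)) (by
      intro t1' y1' i1' he
      simp only [Option.some.injEq, Prod.mk.injEq] at he
      obtain ⟨rfl, rfl, rfl⟩ := he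
      exact ⟨hG.2.2.2.1.2.2.2.1, mu_lt D hT.m_pos hF hG1⟩)
    refine ⟨h', hF, hG, hFG, hg, hst, ?_⟩
    intro F2 x2 G2 y2 s2 t2 he _
    injection he with e1 e2 e3 e4 e5 e6 e7
    subst e1 e2 e3 e4 e5 e6
    exact hW _ _ _ rfl
  · obtain ⟨h', hg, -⟩ := h none (by intro _ _ _ he; cases he)
    refine ⟨h', hF, hG, hFG, hg, hst, ?_⟩
    intro F2 x2 G2 y2 s2 t2 he hne
    exact absurd ⟨F2, x2, G2, y2, s2, t2, he, hne⟩ hex

theorem wit_ch {F G : Fib B} {x y h : B} {s t : ZMod 6} (hN : Valid D (ch F x G y s t h)) :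
    Wit D F x G y s t := by
  have hFG : F ≠ G := hN.2.2.1
  have h1 : Sp (ch F x G y s t h) h F x s := ⟨_, _, _, _, _, _, rfl, hFG, Or.inl ⟨rfl, rfl, rfl⟩⟩
  have h2 : Sp (ch F x G y s t h) h G y t := ⟨_, _, _, _, _, _, rfl, hFG, Or.inr ⟨rfl, rfl, rfl⟩⟩
  refine ⟨_, h, hN, fun e => ?_, fun e => ?_, h1.col_eq' (D := D), h2.col_eq (D := D)⟩
  · have := h1.sz
    exact absurd (congrArg Fib.sz (congrArg Prod.fst e)) (Nat.ne_of_gt this)
  · have := h2.sz
    exact absurd (congrArg Fib.sz (congrArg Prod.fst e)) (Nat.ne_of_gt this)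

theorem wit_ch' {F G : Fib B} {x y h : B} {s t : ZMod 6} (hN : Valid D (ch G y F x t s h)) :
    Wit D F x G y s t := by
  have hFG : G ≠ F := hN.2.2.1
  have h1 : Sp (ch G y F x t s h) h G y t := ⟨_, _, _, _, _, _, rfl, hFG, Or.inl ⟨rfl, rfl, rfl⟩⟩
  have h2 : Sp (ch G y F x t s h) h F x s := ⟨_, _, _, _, _, _, rfl, hFG, Or.inr ⟨rfl, rfl, rfl⟩⟩
  refine ⟨_, h, hN, fun e => ?_, fun e => ?_, h2.col_eq' (D := D), h1.col_eq (D := D)⟩
  · have := h2.sz
    exact absurd (congrArg Fib.sz (congrArg Prod.fst e)) (Nat.ne_of_gt this)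
  · have := h1.sz
    exact absurd (congrArg Fib.sz (congrArg Prod.fst e)) (Nat.ne_of_gt this)

include hT in
theorem wit_core {F G : Fib B} {x y : B} {c : ZMod 6} {dec : Bool} {s t : ZMod 6}
    (hF : Valid D F) (hG : Valid D G) (hFG : F ≠ G) (hc : col D F x G y = c)
    (hreq : D.Req x y (mu F G) c dec) (hdec : dec = true → SpE F G x y)
    (hst : ¬ Forbidden c s t) : Wit D F x G y s t := by
  rcases hreq s t hst with h | h | h | h
  · cases dec with
    | true =>
      rw [if_pos rfl] at h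
      obtain ⟨σ, hσ⟩ := h
      have hs := hdec rfl
      cases σ with
      | inl z =>
        obtain ⟨h1, h2, h3⟩ := hσ
        exact wit_inl hF hFG h1 h2 h3 fun h' => h1 (h'.unique hs).1
      | inr z =>
        obtain ⟨h1, h2, h3⟩ := hσ
        exact wit_inr hG hFG h1 h2 h3 fun h' => h1 (h'.unique hs).2
    | false =>
      rw [if_neg (by decide)] at h
      obtain ⟨σ, σ', hne, hσ, hσ'⟩ := h
      cases σ with
      | inl z =>
        obtain ⟨h1, h2, h3⟩ := hσ
        by_cases hp : SpE F G z y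
        · cases σ' with
          | inl z' =>
            obtain ⟨k1, k2, k3⟩ := hσ'
            exact wit_inl hF hFG k1 k2 k3 fun h' => hne (by rw [(h'.unique hp).1])
          | inr z' =>
            obtain ⟨k1, k2, k3⟩ := hσ'
            exact wit_inr hG hFG k1 k2 k3 fun h' => k1 (h'.unique hp).2
        · exact wit_inl hF hFG h1 h2 h3 hp
      | inr z =>
        obtain ⟨h1, h2, h3⟩ := hσ
        by_cases hp : SpE F G x z
        · cases σ' with
          | inl z' =>
            obtain ⟨k1, k2, k3⟩ := hσ'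
            exact wit_inl hF hFG k1 k2 k3 fun h' => k1 (h'.unique hp).1
          | inr z' =>
            obtain ⟨k1, k2, k3⟩ := hσ'
            exact wit_inr hG hFG k1 k2 k3 fun h' => hne (by rw [(h'.unique hp).2])
        · exact wit_inr hG hFG h1 h2 h3 hp
  · exact wit_free hF hG h
  · obtain ⟨h', hv⟩ := exists_ch hT hF hG hFG (by rw [hc]; exact hst) h
    exact wit_ch hv
  · rw [mu_symm] at h
    obtain ⟨h', hv⟩ := exists_ch hT hG hF hFG.symm (by
      rw [col_symm hT hG hF (fun e => hFG (congrArg Prod.fst e).symm), hc]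
      exact fun hf => hst (forb_swap23 _ _ _ hf)) h
    exact wit_ch' hv

include hT in
theorem wit_symm {F G : Fib B} {x y : B} {s t : ZMod 6} (hF : Valid D F) (hG : Valid D G)
    (h : Wit D G y F x t s) : Wit D F x G y s t := by
  obtain ⟨K, z, hK, h1, h2, h3, h4⟩ := h
  refine ⟨K, z, hK, h2, h1, ?_, ?_⟩
  · rw [col_symm hT hF hK (Ne.symm h2), h4]
  · rw [col_symm hT hK hG h1, h3]

include hT in
/-- **all requests are served** -/
theorem exists_wit (hR : D.ReqOK) {F G : Fib B} {x y : B} {s t : ZMod 6} (hF : Valid D F)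
    (hG : Valid D G) (hne : (F, x) ≠ (G, y)) (hst : ¬ Forbidden (col D F x G y) s t) :
    Wit D F x G y s t := by
  by_cases hFG : F = G
  · subst hFG
    have hxy : x ≠ y := fun h => hne (by rw [h])
    rw [col_self] at hst
    rcases hR.r0 x y hxy s t hst with ⟨z, h1, h2, h3, h4⟩ | ⟨j, z, h1, h2, h3, h4⟩
    · refine ⟨F, z, hF, fun h => h1 (congrArg Prod.snd h), fun h => h2 (congrArg Prod.snd h), ?_, ?_⟩
      · rw [col_self, h3]
      · rw [col_self, h4]
    · refine ⟨free F F j j, z, ⟨hF, hF, h1, h2, h1, h2⟩,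
        fun h => free_ne_left F F j j (congrArg Prod.fst h).symm,
        fun h => free_ne_right F F j j (congrArg Prod.fst h).symm, ?_, ?_⟩
      · rw [(plain_free (Or.inl rfl) x z).col_eq, mu_free_left, h3]
      · rw [(plain_free (Or.inr rfl) y z).symm.col_eq, mu_free_right' rfl, h4]
  · -- the decorated pairs
    have dec : ∀ {F G : Fib B} {x y : B} {c s t : ZMod 6}, Valid D F → Valid D G → F ≠ G →
        Sp F x G y c → ¬ Forbidden (col D F x G y) s t → Wit D F x G y s t := by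
      intro F G x y c s t hF hG hFG hsp hst
      apply wit_symm hT hF hG
      have hc : col D G y F x = c := hsp.col_eq' (D := D)
      rw [hsp.col_eq] at hst
      have hst' : ¬ Forbidden c t s := fun hf => hst (forb_swap23 _ _ _ hf)
      refine wit_core (dec := true) hT hG hF (Ne.symm hFG) hc ?_ (fun _ => Or.inr ⟨c, hsp⟩) hst'
      obtain ⟨F', x', G', y', s', t', rfl, hFG', h⟩ := hsp
      obtain ⟨vF, vG, -, ⟨g1, g2, g3, g4, g5, g6⟩, -, -⟩ := hF
      rcases h with ⟨rfl, rfl, rfl⟩ | ⟨rfl, rfl, rfl⟩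
      · have e : mu G (ch G y G' y' c t' x) = 0 := mu_zero rfl
        rw [e]
        have := hR.r2 y x g1 (by rw [g2]; exact g3) (by rw [g2]; exact g5)
        rwa [g2] at this
      · have e : mu G (ch F' x' G y s' c x) = mu F' G := by rw [mu_symm]; unfold mu; rfl
        rw [e]
        exact hR.r3 _ (mu_lt D hT.m_pos vF vG) y x c g4 g6
    rcases edge_cases hFG x y with ⟨c, h⟩ | ⟨c, h⟩ | h
    · exact dec hF hG hFG h hst
    · apply wit_symm hT hF hG
      refine dec hG hF (Ne.symm hFG) h ?_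
      rw [col_symm hT hG hF (Ne.symm hne)]
      exact fun hf => hst (forb_swap23 _ _ _ hf)
    · have hc := h.col_eq (D := D)
      rw [hc] at hst
      exact wit_core (dec := false) hT hF hG hFG hc
        (hR.r1 _ (mu_lt D hT.m_pos hF hG) x y) (by intro h; cases h) hst

end witnesses

/-- **the colouring from a finite certificate** -/
theorem isColouring [Nonempty B] (hT : D.TriOK) (hR : D.ReqOK) :
    IsColouring (fun u v : {F : Fib B // Valid D F} × B => col D u.1.1 u.2 v.1.1 v.2) := by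
  have lift : ∀ {u v : {F : Fib B // Valid D F} × B}, u ≠ v → (u.1.1, u.2) ≠ (v.1.1, v.2) := by
    intro u v h e
    apply h
    have e1 := congrArg Prod.fst e
    have e2 := congrArg Prod.snd e
    exact Prod.ext (Subtype.ext e1) e2
  refine ⟨?_, ?_, ?_, ?_⟩
  · obtain ⟨p⟩ := ‹Nonempty B›
    have hv : Valid D (free base base 1 1 : Fib B) :=
      ⟨trivial, trivial, le_refl _, hT.m_pos, le_refl _, hT.m_pos⟩
    refine ⟨(⟨base, trivial⟩, p), (⟨free base base 1 1, hv⟩, p), fun h => ?_⟩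
    have := congrArg (fun u => u.1.1) h
    exact free_ne_left _ _ _ _ this
  · intro u v h
    exact col_symm hT u.1.2 v.1.2 (lift h)
  · intro u v w h1 h2 h3
    exact no_forb hT u.1.2 v.1.2 w.1.2 (lift h1) (lift h2) (lift h3)
  · intro u v h s t hst
    obtain ⟨K, z, hK, h1, h2, h3, h4⟩ := exists_wit hT hR u.1.2 v.1.2 (lift h) hst
    refine ⟨(⟨K, hK⟩, z), fun e => h1 ?_, fun e => h2 ?_, h3, h4⟩
    · rw [← e]
    · rw [← e]

/-- **representation from a finite certificate** -/
theorem rep_of_fibcert [Nonempty B] (hT : D.TriOK) (hR : D.ReqOK) :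
    ∃ (U : Type) (r : Set Atom → Set (U × U)), IsRepresentation U r :=
  ⟨_, rep_of_colouring (isColouring D hT hR)⟩

end Pool.Agent.RA6F
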